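import Pool.Agent.H55.TkF3

open Set Filter Pool.Agent.H33.DiaDefs

namespace Pool.Agent.Results.MP_0d317a_lc.DiamondTop

/-- `F`, ordered by reverse inclusion, is Tukey above the finite subsets of a set of size continuum
(here the power set of `ℕ`): some map sends unbounded sets to unbounded sets. -/
def Top {X : Type} (F : Set (Set X)) : Prop :=
  ∃ g : Finset (Set ℕ) → Set X, (∀ s, g s ∈ F) ∧
    ∀ S : Set (Finset (Set ℕ)), ¬ BddAbove S → ¬ ∃ B ∈ F, ∀ s ∈ S, B ⊆ g s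

/-- the Fubini sum of the `V n` along `U` -/
def fub (U : Ultrafilter ℕ) (V : ℕ → Ultrafilter ℕ) : Set (Set (ℕ × ℕ)) :=
  {A | {n | {m | (n, m) ∈ A} ∈ V n} ∈ U}

theorem nt {U : Ultrafilter (ℕ × ℕ)} (h : ∀ D : W → Set (ℕ × ℕ), (∀ ξ, D ξ ∈ U) →
    ∃ I : Set W, I.Infinite ∧ (⋂ ξ ∈ I, D ξ) ∈ U) : ¬ Top {A | A ∈ U.map Nat.pairEquiv} := by
  rintro ⟨g, g1, g2⟩
  obtain ⟨κ⟩ := (Cardinal.le_def W (Set ℕ)).1 (by
    rw [mk_W, Cardinal.mk_set, Cardinal.mk_nat, Cardinal.two_power_aleph0]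
    exact Cardinal.aleph_one_le_continuum)
  obtain ⟨I, i1, i2⟩ := h (fun ξ => Nat.pairEquiv ⁻¹' g {κ ξ}) fun ξ => g1 _
  refine g2 ((fun ξ => {κ ξ}) '' I) (fun ⟨t, ht⟩ => ?_) ⟨⋂ ξ ∈ I, g {κ ξ}, ?_, ?_⟩
  · exact i1.image κ.injective.injOn (t.finite_toSet.subset fun _ ⟨ξ, u, v⟩ =>
      v ▸ ht ⟨ξ, u, rfl⟩ (Finset.mem_singleton_self _))
  · show Nat.pairEquiv ⁻¹' _ ∈ U
    rwa [preimage_iInter₂]
  · rintro _ ⟨ξ, u, rfl⟩
    exact biInter_subset_of_mem u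

theorem result (hD : Diamond) : ∃ U V : Ultrafilter ℕ, (∀ n, {n} ∉ U) ∧ (∀ n, {n} ∉ V) ∧
    ¬ Top {A | A ∈ U} ∧ ¬ Top {A | A ∈ V} ∧ Top (fub U fun _ => V) := by
  classical
  obtain ⟨U, V, A, B, u1, v1, u2, v2, u3, v3, h⟩ := H55.TkF.main hD
  have np : ∀ {U : Ultrafilter (ℕ × ℕ)}, (∀ p, {p} ∉ U) → ∀ n, {n} ∉ U.map Nat.pairEquiv :=
    fun {U} u n k => u (Nat.pairEquiv.symm n) (mem_of_superset (show Nat.pairEquiv ⁻¹' {n} ∈ U from k)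
      fun p hp => Nat.pairEquiv.eq_symm_apply.2 hp)
  refine ⟨U.map Nat.pairEquiv, V.map Nat.pairEquiv, np u1, np v1, nt u2, nt v2,
    fun s => {p | ∀ z ∈ s, Nat.pairEquiv.symm p.1 ∈ A z ∧ Nat.pairEquiv.symm p.2 ∈ B z},
    fun s => ?_, fun S hS ⟨D, d1, d2⟩ => ?_⟩
  · refine mem_of_superset (show (⋂ z ∈ s, A z) ∈ (U : Filter _) from
      (biInter_finset_mem s).2 fun z _ => u3 z) fun p hp => ?_
    refine mem_of_superset (show (⋂ z ∈ s, B z) ∈ (V : Filter _) from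
      (biInter_finset_mem s).2 fun z _ => v3 z) fun q hq z hz => ?_
    simpa only [Equiv.symm_apply_apply] using And.intro (mem_iInter₂.1 hp z hz) (mem_iInter₂.1 hq z hz)
  · have hI : (⋃ s ∈ S, (s : Set (Set ℕ))).Infinite := fun k =>
      hS ⟨k.toFinset, fun s hs z hz => k.mem_toFinset.2 (mem_biUnion hs hz)⟩
    have d3 : Nat.pairEquiv ⁻¹' {n | {m | (n, m) ∈ D} ∈ V.map Nat.pairEquiv} ∈ U := d1
    refine h _ hI (mem_of_superset d3 fun p hp => mem_iInter₂.2 fun z hz => ?_) ?_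
    · obtain ⟨s, hs, hz⟩ := mem_iUnion₂.1 hz
      obtain ⟨m, hm⟩ := Ultrafilter.nonempty_of_mem hp
      simpa only [Equiv.symm_apply_apply] using (d2 s hs hm z hz).1
    · obtain ⟨p, hp⟩ := Ultrafilter.nonempty_of_mem d3
      refine mem_of_superset (show Nat.pairEquiv ⁻¹' {m | (Nat.pairEquiv p, m) ∈ D} ∈ V from hp)
        fun q hq => mem_iInter₂.2 fun z hz => ?_
      obtain ⟨s, hs, hz⟩ := mem_iUnion₂.1 hz
      simpa only [Equiv.symm_apply_apply] using (d2 s hs hq z hz).2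

end Pool.Agent.Results.MP_0d317a_lc.DiamondTop
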